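import Mathlib
import Pool.Agent.X126.Ach

set_option autoImplicit false

open Finset Filter Topology

namespace Pool.Agent.Results.MP_51e3e3_an.WholePlane

/-- The terms `v_n = ((-1)^n / n, (-1)^n / √n)`. -/
noncomputable def v (n : ℕ) : ℝ × ℝ := ((-1) ^ n / (n : ℝ), (-1) ^ n / Real.sqrt n)

/-- The achievement set of `(v_n)_{n ≥ 1}`: all sums of convergent series `∑ ε_n v_n` with `ε_n ∈ {0, 1}`. -/
def achievementSet (v : ℕ → ℝ × ℝ) : Set (ℝ × ℝ) :=
  {x | ∃ ε : ℕ → ℝ, (∀ n, ε n = 0 ∨ ε n = 1) ∧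
    Tendsto (fun N => ∑ n ∈ Icc 1 N, ε n • v n) atTop (𝓝 x)}

open Pool.Agent.X126.Ach in
/-- The achievement set of the series with terms `((-1)^n / n, (-1)^n / √n)` is the whole plane. -/
theorem result : achievementSet v = Set.univ := by
  rw [Set.eq_univ_iff_forall]
  rintro ⟨a, b⟩
  -- a finite prefix
  obtain ⟨F, hF1, hFa⟩ : ∃ F : Finset ℕ, (∀ k ∈ F, 1 ≤ k) ∧ |a - ∑ k ∈ F, (-1) ^ k / (k : ℝ)| ≤ 1 / 1000 := by
    rcases le_total 0 a with ha | ha
    · obtain ⟨J, hJ⟩ := approx (fun j => (1 : ℝ) / (2 * ((j : ℝ) + (500 : ℕ)) + (0 : ℕ))) (1 / 1000)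
        (fun j => by positivity) (fun j => by
          rw [div_le_div_iff_of_pos_left (by norm_num) (by positivity) (by norm_num)]
          push_cast
          have : (0 : ℝ) ≤ j := Nat.cast_nonneg j
          linarith) (not_summable_aux 500 0 (by norm_num)) a ha
      refine ⟨(range J).image (fun j => 2 * (j + 500)), ?_, ?_⟩
      · intro k hk
        obtain ⟨j, -, rfl⟩ := mem_image.1 hk
        omega
      · rw [sum_image (fun x _ y _ h => by omega)]
        have h1 : ∀ j ∈ range J, (-1 : ℝ) ^ (2 * (j + 500)) / ((2 * (j + 500) : ℕ) : ℝ) =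
            (1 : ℝ) / (2 * ((j : ℝ) + (500 : ℕ)) + (0 : ℕ)) := by
          intro j _
          rw [Even.neg_one_pow (even_two_mul _)]
          push_cast
          rw [add_zero]
        rw [sum_congr rfl h1]
        exact hJ
    · obtain ⟨J, hJ⟩ := approx (fun j => (1 : ℝ) / (2 * ((j : ℝ) + (500 : ℕ)) + (1 : ℕ))) (1 / 1000)
        (fun j => by positivity) (fun j => by
          rw [div_le_div_iff_of_pos_left (by norm_num) (by positivity) (by norm_num)]
          push_cast
          have : (0 : ℝ) ≤ j := Nat.cast_nonneg j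
          linarith) (not_summable_aux 500 1 (by norm_num)) (-a) (by linarith)
      refine ⟨(range J).image (fun j => 2 * (j + 500) + 1), ?_, ?_⟩
      · intro k hk
        obtain ⟨j, -, rfl⟩ := mem_image.1 hk
        omega
      · rw [sum_image (fun x _ y _ h => by omega)]
        have h1 : ∀ j ∈ range J, (-1 : ℝ) ^ (2 * (j + 500) + 1) / ((2 * (j + 500) + 1 : ℕ) : ℝ) =
            -((1 : ℝ) / (2 * ((j : ℝ) + (500 : ℕ)) + (1 : ℕ))) := by
          intro j _
          rw [Odd.neg_one_pow (odd_two_mul_add_one _)]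
          push_cast
          ring
        rw [sum_congr rfl h1, sum_neg_distrib]
        rw [← abs_neg]
        refine (le_of_eq ?_).trans hJ
        congr 1
        ring
  set r2 : ℝ := b - ∑ k ∈ F, (-1) ^ k / Real.sqrt (k : ℝ) with hr2
  set r1 : ℝ := a - ∑ k ∈ F, (-1) ^ k / (k : ℝ) with hr1
  set M : ℕ := ⌈(1000 * r2) ^ 2⌉₊ + 200 + F.sup id with hM
  set N : ℕ := 2 * M with hN
  have hNev : Even N := even_two_mul M
  have hN200 : 400 ≤ N := by omega
  set pre : ℕ → ℝ := fun k => if k ∈ F then 1 else 0 with hpre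
  have hst : st pre N (a, b) N = (r1, r2) := by
    have h1 := st_eq pre N (a, b) N
    have h2 : ∑ k ∈ Icc 1 N, eps pre N (a, b) k • Pool.Agent.X126.Ach.v k =
        ∑ k ∈ F, Pool.Agent.X126.Ach.v k := by
      have h3 : ∀ k ∈ Icc 1 N, eps pre N (a, b) k • Pool.Agent.X126.Ach.v k =
          if k ∈ F then Pool.Agent.X126.Ach.v k else 0 := by
        intro k hk
        rw [mem_Icc] at hk
        obtain ⟨m, rfl⟩ := Nat.exists_eq_add_of_le' hk.1
        have h4 : eps pre N (a, b) (m + 1) = pre (m + 1) := by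
          simp only [eps]
          rw [if_pos (by omega)]
        rw [h4]
        simp only [hpre]
        split_ifs <;> simp
      rw [sum_congr rfl h3, sum_ite_mem]
      congr 1
      refine inter_eq_right.2 fun k hk => ?_
      rw [mem_Icc]
      refine ⟨hF1 k hk, ?_⟩
      have : k ≤ F.sup id := le_sup (f := id) hk
      omega
    rw [h2] at h1
    have h5 : st pre N (a, b) N = (a, b) - ∑ k ∈ F, Pool.Agent.X126.Ach.v k := by
      rw [h1]; abel
    rw [h5]
    ext
    · rw [Prod.fst_sub, Prod.fst_sum]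
      rfl
    · rw [Prod.snd_sub, Prod.snd_sum]
      rfl
  have hNr : (400 : ℝ) ≤ N := by exact_mod_cast hN200
  have hN0 : (0 : ℝ) < N := by linarith
  have hsq : 1000 * |r2| ≤ Real.sqrt N := by
    apply Real.le_sqrt_of_sq_le
    have h1 : (1000 * r2) ^ 2 ≤ (⌈(1000 * r2) ^ 2⌉₊ : ℝ) := Nat.le_ceil _
    have h2 : ((⌈(1000 * r2) ^ 2⌉₊ : ℕ) : ℝ) ≤ N := by
      have : ⌈(1000 * r2) ^ 2⌉₊ ≤ N := by omega
      exact_mod_cast this
    rw [mul_pow, sq_abs, ← mul_pow]
    linarith
  have hq0 : 0 ≤ Real.sqrt N := Real.sqrt_nonneg _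
  have hqq : Real.sqrt N * Real.sqrt N = N := Real.mul_self_sqrt hN0.le
  have hy : |Real.sqrt N * r2| ≤ N / 1000 := by
    rw [abs_mul, abs_of_nonneg hq0]
    nlinarith
  have hx : |(N : ℝ) * r1| ≤ N / 1000 := by
    rw [abs_mul, abs_of_pos hN0]
    nlinarith
  have hZ : |Zf N (st pre N (a, b) N)| ≤ (N : ℝ) / 72 - 1 := by
    rw [hst]
    have : Zf N (r1, r2) = 3 * ((N : ℝ) * r1) - 2 * (Real.sqrt N * r2) := by
      unfold Zf; ring
    rw [this]
    rw [abs_le] at hx hy ⊢
    constructor <;> linarith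
  have hD : |Df N (st pre N (a, b) N)| ≤ 5 / 4 * ((N : ℝ) / 72) := by
    rw [hst]
    have : Df N (r1, r2) = ((N : ℝ) * r1) - (Real.sqrt N * r2) := rfl
    rw [this]
    rw [abs_le] at hx hy ⊢
    constructor <;> linarith
  have hlim := tendsto_st pre N hNev (by omega) (a, b) ((N : ℝ) / 72) (by linarith) (by linarith) hZ hD
  refine ⟨eps pre N (a, b), ?_, ?_⟩
  · intro n
    rcases n with _ | n
    · left; rfl
    · simp only [eps]
      split_ifs
      · simp only [hpre]
        split_ifs <;> simp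
      · exact rule_01 _ _
  · have h1 : (fun n => ∑ k ∈ Icc 1 n, eps pre N (a, b) k • v k) =
        fun n => (a, b) - st pre N (a, b) n := by
      funext n
      exact st_eq pre N (a, b) n
    rw [h1]
    have h2 := (tendsto_const_nhds (x := ((a, b) : ℝ × ℝ))).sub hlim
    simpa using h2

end Pool.Agent.Results.MP_51e3e3_an.WholePlane
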